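import Pool.Agent.J4.H59.CC.Select

set_option autoImplicit false

/-!
# The index set, the sequences and the ultrafilters
-/

namespace Pool.Agent.J4.H59.CC

open Submodule Set Filter Cardinal

/-! ## The index set -/

/-- arities: the free generators are leaves, a limit has countably many predecessors -/
abbrev Bt : (ℕ × Bool) ⊕ (Om → Finset ℕ) → Type := fun a => match a with
  | Sum.inl _ => Empty
  | Sum.inr _ => ℕ

/-- the set of generators -/
abbrev J : Type := WType Bt

/-- the free generators -/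
def fr (i : ℕ × Bool) : J := WType.mk (Sum.inl i) Empty.elim

/-- the limits -/
def lim (c : Om → Finset ℕ) (ch : ℕ → J) : J := WType.mk (Sum.inr c) ch

theorem fr_injective : Function.Injective fr := by
  intro i j h
  unfold fr at h
  have := congrArg (fun w : J => match w with | ⟨a, _⟩ => a) h
  simpa using this

theorem J_cases (j : J) : (∃ i, j = fr i) ∨ ∃ c ch, j = lim c ch := by
  rcases j with ⟨a, f⟩
  rcases a with i | c
  · left
    refine ⟨i, ?_⟩
    unfold fr
    congr 1
    funext e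
    exact e.elim
  · right
    exact ⟨c, f, rfl⟩

/-- the group -/
abbrev G : Type := J →₀ ZMod 2

/-- the sequence attached to an index -/
noncomputable def seq : J → Om → G
  | ⟨Sum.inl _, _⟩ => fun _ => 0
  | ⟨Sum.inr c, ch⟩ => fun ω => ∑ k ∈ c ω, Finsupp.single (ch k) 1

theorem seq_fr (i : ℕ × Bool) (ω : Om) : seq (fr i) ω = 0 := rfl

theorem seq_lim (c : Om → Finset ℕ) (ch : ℕ → J) (ω : Om) :
    seq (lim c ch) ω = ∑ k ∈ c ω, Finsupp.single (ch k) 1 := rfl

theorem zmod_two_ne_zero {a : ZMod 2} (h : a ≠ 0) : a = 1 := by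
  revert a
  decide

theorem exists_seq (g : Om → G) : ∃ j, seq j = g := by
  classical
  set S : Set J := insert (fr (0, true)) (⋃ ω, ((g ω).support : Set J)) with hS
  have hSc : S.Countable := (countable_iUnion fun ω => (g ω).support.countable_toSet).insert _
  have hSn : S.Nonempty := ⟨_, mem_insert _ _⟩
  obtain ⟨ch, hch⟩ := hSc.exists_eq_range hSn
  have hk : ∀ j ∈ S, ∃ k, ch k = j := by
    intro j hj
    rw [hch] at hj
    exact hj
  choose! k hk using hk
  refine ⟨lim (fun ω => (g ω).support.image k) ch, ?_⟩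
  funext ω
  have hmem : ∀ j ∈ (g ω).support, j ∈ S := fun j hj =>
    mem_insert_of_mem _ (mem_iUnion.2 ⟨ω, hj⟩)
  rw [seq_lim, Finset.sum_image]
  · conv_rhs => rw [← Finsupp.sum_single (g ω)]
    rw [Finsupp.sum]
    refine Finset.sum_congr rfl fun j hj => ?_
    rw [hk j (hmem j hj), zmod_two_ne_zero (Finsupp.mem_support_iff.1 hj)]
  · intro j hj j' hj' h
    rw [← hk j (hmem j hj), ← hk j' (hmem j' hj'), h]

instance (a : (ℕ × Bool) ⊕ (Om → Finset ℕ)) : Countable (Bt a) := by
  cases a <;> simp only [Bt] <;> infer_instance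

/-- the predecessors of an index -/
def desc (j : J) : Set J :=
  WType.rec (motive := fun _ => Set J) (fun a f ih => insert (WType.mk a f) (⋃ b, ih b)) j

theorem desc_mk (a : (ℕ × Bool) ⊕ (Om → Finset ℕ)) (f : Bt a → J) :
    desc (WType.mk a f) = insert (WType.mk a f) (⋃ b, desc (f b)) := rfl

theorem mem_desc_self (j : J) : j ∈ desc j := by
  cases j
  rw [desc_mk]
  exact mem_insert _ _

theorem countable_desc (j : J) : (desc j).Countable := by
  induction j with
  | mk a f ih =>
    rw [desc_mk]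
    exact (countable_iUnion ih).insert _

/-- closed sets of indices -/
def Cl (E : Set J) : Prop := ∀ c ch, lim c ch ∈ E → ∀ k, ch k ∈ E

theorem cl_desc (j : J) : Cl (desc j) := by
  intro c ch h k
  induction j with
  | mk a f ih =>
    rw [desc_mk] at h ⊢
    rcases h with h | h
    · unfold lim at h
      injection h with h1 h2
      subst h1
      rw [heq_iff_eq] at h2
      subst h2
      exact Or.inr (mem_iUnion.2 ⟨k, mem_desc_self _⟩)
    · obtain ⟨b, hb⟩ := mem_iUnion.1 h
      exact Or.inr (mem_iUnion.2 ⟨b, ih b hb⟩)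

theorem exists_closed {S : Set J} (hS : S.Countable) : ∃ E, S ⊆ E ∧ E.Countable ∧ Cl E := by
  refine ⟨⋃ j ∈ S, desc j, ?_, hS.biUnion fun j _ => countable_desc j, ?_⟩
  · intro j hj
    exact mem_biUnion hj (mem_desc_self j)
  · intro c ch h k
    obtain ⟨j, hj, h⟩ := mem_iUnion₂.1 h
    exact mem_iUnion₂.2 ⟨j, hj, cl_desc j c ch h k⟩

theorem card_J : #J ≤ 𝔠 := by
  apply WType.cardinalMk_le_of_le
  have h1 : #((ℕ × Bool) ⊕ (Om → Finset ℕ)) ≤ 𝔠 := by
    have h2 : #(Om → Finset ℕ) ≤ 𝔠 := by
      have e1 : #Om = ℵ₀ := by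
        have : Infinite Om := Infinite.of_injective (fun n : ℕ => (⟨n, ⟨0, by simp [ss]⟩⟩ : Om))
          (fun a b h => by simpa using congrArg Sigma.fst h)
        exact mk_eq_aleph0 _
      have e2 : #(Finset ℕ) = ℵ₀ := mk_eq_aleph0 _
      rw [← power_def, e1, e2, aleph0_power_aleph0]
    have h3 : #(ℕ × Bool) = ℵ₀ := mk_eq_aleph0 _
    rw [mk_sum, lift_id, lift_id, h3]
    exact add_le_of_le aleph0_le_continuum aleph0_le_continuum h2
  calc (Cardinal.sum fun a => 𝔠 ^ #(Bt a)) ≤ Cardinal.sum fun _ : (ℕ × Bool) ⊕ (Om → Finset ℕ) => 𝔠 := by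
        apply sum_le_sum
        intro a
        calc 𝔠 ^ #(Bt a) ≤ 𝔠 ^ ℵ₀ :=
              power_le_power_left continuum_ne_zero (mk_le_aleph0)
          _ = 𝔠 := continuum_power_aleph0
    _ = #((ℕ × Bool) ⊕ (Om → Finset ℕ)) * 𝔠 := by simp
    _ ≤ 𝔠 * 𝔠 := mul_le_mul' h1 le_rfl
    _ = 𝔠 := continuum_mul_self

theorem exists_code : ∃ e : J → (ℕ → Bool), Function.Injective e := by
  have h : #J ≤ #(ℕ → Bool) := by
    refine card_J.trans ?_
    simp
  obtain ⟨e⟩ := h
  exact ⟨e, e.injective⟩

/-- a code for the generators -/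
noncomputable def code : J → (ℕ → Bool) := exists_code.choose

theorem code_injective : Function.Injective code := exists_code.choose_spec

/-- almost disjoint sets -/
noncomputable def Af (j : J) : Set ℕ :=
  range (fun n : ℕ => Encodable.encode (List.ofFn (fun i : Fin n => code j i)))

theorem Af_infinite (j : J) : (Af j).Infinite := by
  apply infinite_range_of_injective
  intro a b h
  have := Encodable.encode_injective h
  have h2 := congrArg List.length this
  simpa using h2

theorem Af_inter {j j' : J} (h : j ≠ j') : (Af j ∩ Af j').Finite := by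
  have h1 : code j ≠ code j' := fun h' => h (code_injective h')
  obtain ⟨k, hk⟩ := Function.ne_iff.1 h1
  refine ((finite_Iic k).image
    (fun n : ℕ => Encodable.encode (List.ofFn (fun i : Fin n => code j i)))).subset ?_
  rintro _ ⟨⟨n, rfl⟩, ⟨m, hm⟩⟩
  refine ⟨n, ?_, rfl⟩
  by_contra hn
  simp only [mem_Iic, not_le] at hn
  have h2 := Encodable.encode_injective hm
  have h3 : m = n := by simpa using congrArg List.length h2
  subst h3
  have h4 := List.ofFn_injective h2
  exact hk (congrFun h4 ⟨k, hn⟩).symm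

/-! ## The ultrafilters -/

/-- the part of block `n` outside of `X` -/
def miss (X : Set Om) (n : ℕ) : Set (Fin (ss n)) := {i | (⟨n, i⟩ : Om) ∉ X}

/-- the filter of the sets which are big on the blocks in `A` -/
def bigF (A : Set ℕ) : Filter Om where
  sets := {X | ∃ k : ℕ, ∀ᶠ n in atTop, n ∈ A → (miss X n).encard ≤ (k * ww n : ℕ)}
  univ_sets := ⟨0, Eventually.of_forall fun n _ => by simp [miss]⟩
  sets_of_superset := by
    rintro X Y ⟨k, hk⟩ hXY
    refine ⟨k, hk.mono fun n hn hA => (encard_le_encard ?_).trans (hn hA)⟩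
    intro i hi h
    exact hi (hXY h)
  inter_sets := by
    rintro X Y ⟨k, hk⟩ ⟨l, hl⟩
    refine ⟨k + l, ?_⟩
    filter_upwards [hk, hl] with n h1 h2 hA
    have h3 : miss (X ∩ Y) n ⊆ miss X n ∪ miss Y n := by
      intro i hi
      by_cases h : (⟨n, i⟩ : Om) ∈ X
      · exact Or.inr fun h' => hi ⟨h, h'⟩
      · exact Or.inl h
    refine (encard_le_encard h3).trans ((encard_union_le _ _).trans ?_)
    refine (add_le_add (h1 hA) (h2 hA)).trans ?_
    rw [add_mul]
    push_cast
    exact le_rfl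

theorem mem_bigF {A : Set ℕ} {X : Set Om} : X ∈ bigF A ↔
    ∃ k : ℕ, ∀ᶠ n in atTop, n ∈ A → (miss X n).encard ≤ (k * ww n : ℕ) := Iff.rfl

theorem bigF_neBot {A : Set ℕ} (hA : A.Infinite) : (bigF A).NeBot := by
  rw [neBot_iff]
  intro h
  have h1 : (∅ : Set Om) ∈ bigF A := by rw [h]; exact mem_bot
  obtain ⟨k, hk⟩ := mem_bigF.1 h1
  obtain ⟨N, hN⟩ := eventually_atTop.1 hk
  obtain ⟨n, hn, hn2⟩ := hA.exists_gt (max N k)
  have h2 := hN n (le_of_lt (lt_of_le_of_lt (le_max_left _ _) hn2)) hn
  have h3 : miss ∅ n = Set.univ := by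
    ext i
    simp [miss]
  rw [h3, encard_univ, ENat.card_eq_coe_fintype_card, Fintype.card_fin] at h2
  have h4 : ss n ≤ k * ww n := by exact_mod_cast h2
  have h5 : k * ww n ≤ n * ww n :=
    Nat.mul_le_mul_right _ (le_of_lt (lt_of_le_of_lt (le_max_right _ _) hn2))
  have h6 : ss n = n * ww n + 1 := rfl
  omega

/-- the ultrafilters -/
noncomputable def pp (j : J) : Ultrafilter Om :=
  @Ultrafilter.of _ (bigF (Af j)) (bigF_neBot (Af_infinite j))

theorem pp_le (j : J) : (pp j : Filter Om) ≤ bigF (Af j) :=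
  @Ultrafilter.of_le _ (bigF (Af j)) (bigF_neBot (Af_infinite j))

theorem pp_cofinite (j : J) : (pp j : Filter Om) ≤ cofinite := by
  refine (pp_le j).trans ?_
  rw [le_cofinite_iff_compl_singleton_mem]
  intro ω
  refine ⟨1, Eventually.of_forall fun n _ => ?_⟩
  have h1 : (miss {ω}ᶜ n).encard ≤ 1 := by
    rw [encard_le_one_iff]
    intro a b ha hb
    simp only [miss, mem_compl_iff, mem_singleton_iff, not_not, mem_ofPred_eq] at ha hb
    rw [← hb] at ha
    simpa using ha
  refine h1.trans ?_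
  rw [one_mul]
  exact_mod_cast (by simp [ww] : 1 ≤ ww n)

/-- owners of the blocks, for countably many indices -/
theorem exists_owner {D : Set J} (hD : D.Countable) : ∃ owner : ℕ → Option D,
    ∀ d : D, ∀ᶠ n in atTop, n ∈ Af d → owner n = some d := by
  classical
  have : Countable D := hD.to_subtype
  obtain ⟨e, he⟩ := exists_injective_nat D
  let owner : ℕ → Option D := fun n =>
    if h : ∃ d : D, n ∈ Af d ∧ ∀ d' : D, n ∈ Af d' → e d ≤ e d' then some h.choose else none
  have hown : ∀ (n : ℕ) (d : D), n ∈ Af d → (∀ d' : D, n ∈ Af d' → e d ≤ e d') →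
      owner n = some d := by
    intro n d h1 h2
    have h : ∃ d : D, n ∈ Af d ∧ ∀ d' : D, n ∈ Af d' → e d ≤ e d' := ⟨d, h1, h2⟩
    simp only [owner, dif_pos h]
    congr 1
    apply he
    exact le_antisymm (h.choose_spec.2 d h1) (h2 _ h.choose_spec.1)
  refine ⟨owner, fun d => ?_⟩
  have hfin : {d' : D | e d' < e d}.Finite := (finite_Iio (e d)).preimage he.injOn
  have h1 : (⋃ d' ∈ {d' : D | e d' < e d}, (Af d ∩ Af d')).Finite := by
    refine hfin.biUnion fun d' hd' => Af_inter ?_
    intro h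
    have h2 : d = d' := Subtype.ext h
    rw [h2] at hd'
    exact lt_irrefl (e d') hd'
  obtain ⟨N, hN⟩ := h1.bddAbove
  filter_upwards [eventually_gt_atTop N] with n hn hnA
  apply hown n d hnA
  intro d' hd'
  by_contra hlt
  rw [not_le] at hlt
  have : n ≤ N := hN (mem_iUnion₂.2 ⟨d', hlt, hnA, hd'⟩)
  omega

end Pool.Agent.J4.H59.CC
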