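import Pool.Agent.J4.H59.CC.Base

set_option autoImplicit false

/-!
# Continuous functionals
-/

namespace Pool.Agent.J4.H59.CC

open Submodule Set Filter

/-- the linear extension of a function on the generators -/
noncomputable def LL (φ : J → ZMod 2) : G →ₗ[ZMod 2] ZMod 2 := Finsupp.linearCombination (ZMod 2) φ

theorem LL_single (φ : J → ZMod 2) (j : J) : LL φ (Finsupp.single j 1) = φ j := by
  simp [LL]

theorem LL_congr {φ ψ : J → ZMod 2} {u : G} (h : ∀ j ∈ u.support, φ j = ψ j) :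
    LL φ u = LL ψ u := by
  simp only [LL, Finsupp.linearCombination_apply]
  exact Finset.sum_congr rfl fun j hj => by simp only [h j hj]

theorem LL_of_linear (Φ : G →ₗ[ZMod 2] ZMod 2) :
    LL (fun j => Φ (Finsupp.single j 1)) = Φ := by
  ext j
  simp [LL]

theorem LL_seq (φ : J → ZMod 2) (c : Om → Finset ℕ) (ch : ℕ → J) (ω : Om) :
    LL φ (seq (lim c ch) ω) = ∑ k ∈ c ω, φ (ch k) := by
  rw [seq_lim, map_sum]
  exact Finset.sum_congr rfl fun k _ => LL_single φ _

/-- the functionals which define the topology -/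
def Good (φ : J → ZMod 2) : Prop :=
  ∀ j, LinearIndependent (ZMod 2) (seq j) → ∀ᶠ ω in (pp j : Filter Om), LL φ (seq j ω) = φ j

open Classical in
/-- the limit along an ultrafilter -/
noncomputable def ulim (p : Ultrafilter Om) (h : Om → ZMod 2) : ZMod 2 :=
  if ∀ᶠ ω in (p : Filter Om), h ω = 1 then 1 else 0

theorem ulim_spec (p : Ultrafilter Om) (h : Om → ZMod 2) :
    ∀ᶠ ω in (p : Filter Om), h ω = ulim p h := by
  classical
  unfold ulim
  split_ifs with h1
  · exact h1
  · have h2 : {ω | h ω = 1}ᶜ ∈ p := Ultrafilter.compl_mem_iff_notMem.2 h1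
    filter_upwards [h2] with ω hω
    by_contra h3
    exact hω (zmod_two_ne_zero h3)

open Classical in
/-- one step of the extension -/
noncomputable def extStep (E : Set J) (φ : J → ZMod 2) :
    (a : (ℕ × Bool) ⊕ (Om → Finset ℕ)) → (Bt a → J) → (Bt a → ZMod 2) → ZMod 2
  | Sum.inl i, f, _ => φ (WType.mk (Sum.inl i) f)
  | Sum.inr c, f, ih => if WType.mk (Sum.inr c) f ∈ E then φ (WType.mk (Sum.inr c) f)
      else ulim (pp (WType.mk (Sum.inr c) f)) (fun ω => ∑ k ∈ c ω, ih k)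

/-- the extension of a functional on a closed set -/
noncomputable def ext (E : Set J) (φ : J → ZMod 2) (j : J) : ZMod 2 :=
  WType.rec (motive := fun _ => ZMod 2) (fun a f ih => extStep E φ a f ih) j

theorem ext_fr (E : Set J) (φ : J → ZMod 2) (i : ℕ × Bool) : ext E φ (fr i) = φ (fr i) := rfl

theorem ext_lim (E : Set J) (φ : J → ZMod 2) (c : Om → Finset ℕ) (ch : ℕ → J) :
    ext E φ (lim c ch) = extStep E φ (Sum.inr c) ch (fun k => ext E φ (ch k)) := rfl

theorem ext_of_mem (E : Set J) (φ : J → ZMod 2) (j : J) (hj : j ∈ E) : ext E φ j = φ j := by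
  rcases J_cases j with ⟨i, rfl⟩ | ⟨c, ch, rfl⟩
  · rfl
  · rw [ext_lim]
    exact if_pos hj

theorem ext_of_notMem (E : Set J) (φ : J → ZMod 2) (c : Om → Finset ℕ) (ch : ℕ → J)
    (hj : lim c ch ∉ E) : ext E φ (lim c ch) =
      ulim (pp (lim c ch)) (fun ω => ∑ k ∈ c ω, ext E φ (ch k)) := by
  rw [ext_lim]
  exact if_neg hj

theorem seq_support {E : Set J} (hE : Cl E) {j : J} (hj : j ∈ E) (ω : Om) :
    ((seq j ω).support : Set J) ⊆ E := by
  classical
  rcases J_cases j with ⟨i, rfl⟩ | ⟨c, ch, rfl⟩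
  · rw [seq_fr]
    simp
  · rw [seq_lim]
    intro i hi
    have h1 := Finsupp.support_finsetSum (s := c ω)
      (f := fun k => (Finsupp.single (ch k) 1 : G)) hi
    simp only [Finset.mem_biUnion] at h1
    obtain ⟨k, _, hk⟩ := h1
    have hk' : i = ch k := by
      by_contra hne
      rw [Finsupp.mem_support_iff, Finsupp.single_apply, if_neg (Ne.symm hne)] at hk
      exact hk rfl
    rw [hk']
    exact hE c ch hj k

theorem good_ext {E : Set J} (hE : Cl E) (φ : J → ZMod 2)
    (h : ∀ j ∈ E, LinearIndependent (ZMod 2) (seq j) →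
      ∀ᶠ ω in (pp j : Filter Om), LL φ (seq j ω) = φ j) : Good (ext E φ) := by
  intro j hj
  by_cases hjE : j ∈ E
  · rw [ext_of_mem E φ j hjE]
    filter_upwards [h j hjE hj] with ω hω
    rw [← hω]
    exact LL_congr fun i hi => ext_of_mem E φ i (seq_support hE hjE ω hi)
  · rcases J_cases j with ⟨i, rfl⟩ | ⟨c, ch, rfl⟩
    · exact absurd (seq_fr i ⟨0, ⟨0, by simp [ss]⟩⟩) (hj.ne_zero _)
    · rw [ext_of_notMem E φ c ch hjE]
      filter_upwards [ulim_spec (pp (lim c ch)) (fun ω => ∑ k ∈ c ω, ext E φ (ch k))] with ω hω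
      rw [← hω]
      exact LL_seq _ _ _ _

/-- **Existence of functionals.** -/
theorem exists_good (C : Finset G) (hC : LinearIndepOn (ZMod 2) id (C : Set G)) (a : G → ZMod 2) :
    ∃ φ : J → ZMod 2, Good φ ∧ (∀ u ∈ C, LL φ u = a u) ∧
      ∀ᶠ n : ℕ in atTop, φ (fr (n, true)) = 1 ∨ φ (fr (n, false)) = 1 := by
  classical
  obtain ⟨E, hSE, hEc, hE⟩ := exists_closed (S := (⋃ u ∈ C, (u.support : Set J)) ∪ range fr)
    ((C.countable_toSet.biUnion fun u _ => u.support.countable_toSet).union (countable_range _))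
  set D : Set J := {j ∈ E | LinearIndependent (ZMod 2) (seq j)} with hD
  have hDc : D.Countable := hEc.mono fun j hj => hj.1
  obtain ⟨owner, howner⟩ := exists_owner hDc
  let g : Om → G := fun ω => match owner ω.1 with
    | some d => seq d ω + Finsupp.single (d : J) 1
    | none => 0
  have hgd : ∀ (ω : Om) (d : D), owner ω.1 = some d →
      g ω = seq d ω + Finsupp.single (d : J) 1 := by
    intro ω d h
    simp only [g, h]
  let x : ℕ × Bool → G := fun i => Finsupp.single (fr i) 1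
  have hx : LinearIndependent (ZMod 2) x :=
    (Finsupp.linearIndependent_single_one (ZMod 2) J).comp fr fr_injective
  obtain ⟨U, z, hU, hz⟩ := selection owner (fun d : D => pp d) (by
    intro n d _ X hX
    apply pp_le d
    refine ⟨1, ?_⟩
    filter_upwards [howner d] with m hm hA
    rw [one_mul]
    exact hX m (hm hA)) g x hx (by
    intro n d hnd
    obtain ⟨S, hS1, hS2⟩ := shift_indep d.2.2 (Finsupp.single (d : J) (1 : ZMod 2))
    refine ⟨(fun i => (⟨n, i⟩ : Om)) ⁻¹' S, ?_, ?_⟩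
    · rw [← preimage_compl]
      refine (encard_preimage_le _ ?_ _).trans hS1
      intro i i' h
      simpa using h
    · have h1 : LinearIndepOn (ZMod 2) (fun ω => seq d ω + Finsupp.single (d : J) 1)
          ((fun i => (⟨n, i⟩ : Om)) '' ((fun i => (⟨n, i⟩ : Om)) ⁻¹' S)) :=
        hS2.mono (image_preimage_subset _ _)
      have h2 : (fun i : Fin (ss n) => g ⟨n, i⟩) =
          (fun ω => seq d ω + Finsupp.single (d : J) 1) ∘ (fun i => (⟨n, i⟩ : Om)) := by
        funext i
        exact hgd ⟨n, i⟩ d hnd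
      rw [h2]
      apply h1.comp_of_image
      intro i _ i' _ h
      simpa using h)
  -- add the vectors of `C`
  let v : (Om ⊕ (ℕ × Bool)) ⊕ G → G := Sum.elim (fam g x) id
  have h1 : LinearIndepOn (ZMod 2) v ((∅ : Set ((Om ⊕ (ℕ × Bool)) ⊕ G)) ∪
      Sum.inl '' (Sum.inl '' U ∪ Sum.inr '' {i | i.2 = z i.1})) := by
    rw [empty_union]
    exact LinearIndepOn.image_of_comp (f := Sum.inl) (g := v) (s := _) hz
  have h2 : LinearIndepOn (ZMod 2) v ((∅ : Set ((Om ⊕ (ℕ × Bool)) ⊕ G)) ∪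
      ((C.image Sum.inr : Finset ((Om ⊕ (ℕ × Bool)) ⊕ G)) : Set ((Om ⊕ (ℕ × Bool)) ⊕ G))) := by
    rw [empty_union, Finset.coe_image]
    exact LinearIndepOn.image_of_comp (f := Sum.inr) (g := v) (s := _) hC
  obtain ⟨B, hB, hBc, h3⟩ := exchange (C.image Sum.inr) h1 h2
  have hfin : (Sum.inl '' (Sum.inl '' U ∪ Sum.inr '' {i | i.2 = z i.1}) \ B).Finite :=
    finite_of_encard_le_coe hBc
  let b : (Om ⊕ (ℕ × Bool)) ⊕ G → ZMod 2 := fun i => match i with
    | Sum.inl (Sum.inl _) => 0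
    | Sum.inl (Sum.inr _) => 1
    | Sum.inr u => a u
  obtain ⟨Φ, hΦ⟩ := exists_functional h3 b
  set φ : J → ZMod 2 := fun j => Φ (Finsupp.single j 1) with hφ
  have hLφ : LL φ = Φ := LL_of_linear Φ
  refine ⟨ext E φ, good_ext hE φ ?_, ?_, ?_⟩
  · intro j hj hli
    have hjD : j ∈ D := ⟨hj, hli⟩
    -- some block has the owner `j`
    have hex : ∃ n, owner n = some ⟨j, hjD⟩ := by
      obtain ⟨N, hN⟩ := eventually_atTop.1 (howner ⟨j, hjD⟩)
      obtain ⟨n, hn, hn2⟩ := (Af_infinite j).exists_gt N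
      exact ⟨n, hN n hn2.le hn⟩
    obtain ⟨n, hn⟩ := hex
    have h4 := hU n ⟨j, hjD⟩ hn
    have h5 : {ω : Om | Sum.inl (Sum.inl ω) ∈
        Sum.inl '' (Sum.inl '' U ∪ Sum.inr '' {i : ℕ × Bool | i.2 = z i.1}) \ B}ᶜ ∈ pp j := by
      apply pp_cofinite j
      rw [mem_cofinite, compl_compl]
      refine hfin.preimage ?_
      intro ω _ ω' _ h
      exact Sum.inl_injective (Sum.inl_injective h)
    filter_upwards [h4, h5] with ω h6 h7
    have h8 : Sum.inl (Sum.inl ω) ∈ B := by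
      by_contra h9
      exact h7 ⟨⟨_, Or.inl ⟨ω, h6.1, rfl⟩, rfl⟩, h9⟩
    have h9 := hΦ (Sum.inl (Sum.inl ω)) (Or.inl (Or.inr h8))
    have h10 : v (Sum.inl (Sum.inl ω)) = seq j ω + Finsupp.single j 1 := hgd ω ⟨j, hjD⟩ h6.2
    rw [h10, map_add] at h9
    have h11 : Φ (seq j ω) + φ j = 0 := h9
    rw [hLφ, eq_neg_of_add_eq_zero_left h11]
    exact ZMod.neg_eq_self_mod_two _
  · intro u hu
    have h4 := hΦ (Sum.inr u) (Or.inr (by simpa using hu))
    have h5 : LL (ext E φ) u = LL φ u := by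
      apply LL_congr
      intro j hj
      exact ext_of_mem E φ j (hSE (Or.inl (mem_iUnion₂.2 ⟨u, hu, hj⟩)))
    rw [h5, hLφ]
    exact h4
  · have h4 : {n : ℕ | Sum.inl (Sum.inr (n, z n)) ∈
        Sum.inl '' (Sum.inl '' U ∪ Sum.inr '' {i : ℕ × Bool | i.2 = z i.1}) \ B}.Finite := by
      refine hfin.preimage ?_
      intro n _ n' _ h
      have := Sum.inr_injective (Sum.inl_injective h)
      exact congrArg Prod.fst this
    obtain ⟨N, hN⟩ := h4.bddAbove
    filter_upwards [eventually_gt_atTop N] with n hn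
    have h5 : Sum.inl (Sum.inr (n, z n)) ∈ B := by
      by_contra h9
      have : n ≤ N := hN ⟨⟨_, Or.inr ⟨(n, z n), rfl, rfl⟩, rfl⟩, h9⟩
      omega
    have h6 := hΦ (Sum.inl (Sum.inr (n, z n))) (Or.inl (Or.inr h5))
    have h7 : φ (fr (n, z n)) = 1 := h6
    cases hzn : z n
    · right
      rw [ext_fr, ← hzn]
      exact h7
    · left
      rw [ext_fr, ← hzn]
      exact h7

end Pool.Agent.J4.H59.CC
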