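import Mathlib

set_option autoImplicit false

/-!
# Linear algebra: exchange and a partition lemma
-/

namespace Pool.Agent.J4.H59.CC

open Submodule Set

variable {K V ι : Type*} [Field K] [AddCommGroup V] [Module K V] {v : ι → V}

/-- Exchange of one element. -/
theorem exchange_one {A B : Set ι} {c : ι} (hAB : LinearIndepOn K v (A ∪ B))
    (hAc : LinearIndepOn K v (insert c A)) :
    ∃ B' ⊆ B, (B \ B').encard ≤ 1 ∧ LinearIndepOn K v (insert c (A ∪ B')) := by
  classical
  by_cases hc : c ∈ A ∪ B
  · exact ⟨B, subset_rfl, by simp, by rwa [insert_eq_of_mem hc]⟩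
  by_cases hs : v c ∈ span K (v '' (A ∪ B))
  · obtain ⟨l, hl, hlc⟩ := (Finsupp.mem_span_image_iff_linearCombination K).1 hs
    have hcA : c ∉ A := fun h => hc (Or.inl h)
    have h1 : ∃ b ∈ l.support, b ∉ A := by
      by_contra! h
      have : v c ∈ span K (v '' A) :=
        (Finsupp.mem_span_image_iff_linearCombination K).2 ⟨l, fun i hi => h i hi, hlc⟩
      exact hAc.notMem_span_of_insert hcA this
    obtain ⟨b, hb, hbA⟩ := h1
    have hbB : b ∈ B := ((hl hb : b ∈ A ∪ B)).resolve_left hbA
    refine ⟨B \ {b}, sdiff_subset, ?_, ?_⟩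
    · rw [sdiff_sdiff_right_self]
      refine (encard_le_encard (t := {b}) ?_).trans (by simp)
      exact fun x hx => hx.2
    · apply LinearIndepOn.insert
      · exact hAB.mono (union_subset_union_right _ sdiff_subset)
      · intro h2
        obtain ⟨l', hl', hlc'⟩ := (Finsupp.mem_span_image_iff_linearCombination K).1 h2
        have hl'2 : l' ∈ Finsupp.supported K K (A ∪ B) :=
          fun i hi => union_subset_union_right _ sdiff_subset (hl' hi)
        have h3 : l = l' := by
          exact linearIndepOn_iffₛ.1 hAB l hl l' hl'2 (by rw [hlc, hlc'])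
        have h4 : b ∉ l'.support := by
          intro h5
          rcases (hl' h5 : b ∈ A ∪ B \ {b}) with h6 | h6
          · exact hbA h6
          · exact h6.2 rfl
        rw [← h3] at h4
        exact h4 hb
  · exact ⟨B, subset_rfl, by simp, hAB.insert hs⟩

/-- Exchange of finitely many elements. -/
theorem exchange {A B : Set ι} (C : Finset ι) (hAB : LinearIndepOn K v (A ∪ B))
    (hAC : LinearIndepOn K v (A ∪ C)) :
    ∃ B' ⊆ B, (B \ B').encard ≤ C.card ∧ LinearIndepOn K v (A ∪ B' ∪ C) := by
  classical
  induction C using Finset.induction_on with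
  | empty => exact ⟨B, subset_rfl, by simp, by simpa using hAB⟩
  | insert c C hc ih =>
    obtain ⟨B0, hB0, hc0, h0⟩ := ih (hAC.mono (union_subset_union_right _ (by simp)))
    have h1 : LinearIndepOn K v ((A ∪ C) ∪ B0) := by
      refine h0.mono ?_
      rintro x ((hx | hx) | hx)
      · exact Or.inl (Or.inl hx)
      · exact Or.inr hx
      · exact Or.inl (Or.inr hx)
    have h2 : LinearIndepOn K v (insert c (A ∪ C)) := by
      refine hAC.mono ?_
      intro x hx
      rcases hx with rfl | hx | hx
      · exact Or.inr (by simp)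
      · exact Or.inl hx
      · exact Or.inr (by simp [show x ∈ C from hx])
    obtain ⟨B1, hB1, hc1, h3⟩ := exchange_one h1 h2
    refine ⟨B1, hB1.trans hB0, ?_, ?_⟩
    · have h4 : B \ B1 ⊆ (B \ B0) ∪ (B0 \ B1) := by
        intro x hx
        by_cases hx0 : x ∈ B0
        · exact Or.inr ⟨hx0, hx.2⟩
        · exact Or.inl ⟨hx.1, hx0⟩
      refine (encard_le_encard h4).trans ((encard_union_le _ _).trans ?_)
      rw [Finset.card_insert_of_notMem hc]
      push_cast
      exact add_le_add hc0 hc1
    · refine h3.mono ?_
      rintro x ((hx | hx) | hx)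
      · exact Or.inr (Or.inl (Or.inl hx))
      · exact Or.inr (Or.inr hx)
      · have hx' : x = c ∨ x ∈ C := by simpa using hx
        rcases hx' with rfl | hx'
        · exact Or.inl rfl
        · exact Or.inr (Or.inl (Or.inr hx'))

/-- A finite linearly independent family can be split in a part which is independent modulo `X` and
a part which is independent modulo `Y`, if `X` and `Y` are disjoint. -/
theorem partition {ι : Type*} [Fintype ι] (f : ι → V) (hf : LinearIndependent K f)
    (X Y : Submodule K V) (hXY : Disjoint X Y) :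
    ∃ s : Finset ι, LinearIndepOn K (X.mkQ ∘ f) (s : Set ι) ∧
      LinearIndepOn K (Y.mkQ ∘ f) ((s : Set ι)ᶜ) := by
  classical
  set π : V →ₗ[K] (V ⧸ X) × (V ⧸ Y) := X.mkQ.prod Y.mkQ with hπ
  have hker : LinearMap.ker π = ⊥ := by
    rw [hπ, LinearMap.ker_prod, ker_mkQ, ker_mkQ]
    exact hXY.eq_bot
  have hg : LinearIndependent K (π ∘ f) := hf.map' π hker
  obtain ⟨L, hL⟩ := LinearMap.exists_leftInverse_of_injective
    (Finsupp.linearCombination K (π ∘ f)) (LinearMap.ker_eq_bot.2 hg)
  have hL1 : ∀ i, L (π (f i)) = Finsupp.single i 1 := by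
    intro i
    have := LinearMap.congr_fun hL (Finsupp.single i 1)
    simpa using this
  set L2 : (V ⧸ X) × (V ⧸ Y) →ₗ[K] (ι → K) :=
    (Finsupp.linearEquivFunOnFinite K K ι).toLinearMap ∘ₗ L with hL2
  set D := (Matrix.detRowAlternating (R := K) (n := ι)).compLinearMap L2 with hD
  have hDg : D (π ∘ f) = 1 := by
    have : (fun i => L2 ((π ∘ f) i)) = (1 : Matrix ι ι K) := by
      funext i j
      simp only [hL2, LinearMap.comp_apply, Function.comp, hL1]
      simp [Matrix.one_apply, Finsupp.single_apply]
    rw [hD, AlternatingMap.compLinearMap_apply, this]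
    exact Matrix.det_one
  set u : ι → (V ⧸ X) × (V ⧸ Y) := fun i => (X.mkQ (f i), 0) with hu
  set w : ι → (V ⧸ X) × (V ⧸ Y) := fun i => (0, Y.mkQ (f i)) with hw
  have huw : π ∘ f = u + w := by
    funext i
    simp [hu, hw, hπ]
  have h1 : ∃ s : Finset ι, D (s.piecewise u w) ≠ 0 := by
    by_contra! h
    have h2 := D.toMultilinearMap.map_add_univ u w
    rw [← huw] at h2
    have h3 : D (π ∘ f) = 0 := by
      refine Eq.trans h2 (Finset.sum_eq_zero fun s _ => h s)
    rw [hDg] at h3
    exact one_ne_zero h3
  obtain ⟨s, hs⟩ := h1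
  have hli : LinearIndependent K (s.piecewise u w) := by
    by_contra h
    exact hs (D.map_linearDependent _ h)
  refine ⟨s, ?_, ?_⟩
  · have h2 : LinearIndepOn K (s.piecewise u w) (s : Set ι) := hli.linearIndepOn _
    have h3 : LinearIndepOn K u (s : Set ι) := by
      refine h2.congr fun i hi => ?_
      simp [show i ∈ s from hi]
    exact LinearIndepOn.of_comp (LinearMap.inl K (V ⧸ X) (V ⧸ Y)) h3
  · have h2 : LinearIndepOn K (s.piecewise u w) ((s : Set ι)ᶜ) := hli.linearIndepOn _
    have h3 : LinearIndepOn K w ((s : Set ι)ᶜ) := by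
      refine h2.congr fun i hi => ?_
      simp [show i ∉ s from hi]
    exact LinearIndepOn.of_comp (LinearMap.inr K (V ⧸ X) (V ⧸ Y)) h3

/-- A functional with prescribed values on a linearly independent family. -/
theorem exists_functional {s : Set ι} (h : LinearIndepOn K v s) (a : ι → K) :
    ∃ Φ : V →ₗ[K] K, ∀ i ∈ s, Φ (v i) = a i := by
  have h' : LinearIndependent K (fun i : s => v i) := h
  obtain ⟨L, hL⟩ := LinearMap.exists_leftInverse_of_injective
    (Finsupp.linearCombination K (fun i : s => v i)) (LinearMap.ker_eq_bot.2 h')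
  refine ⟨(Finsupp.linearCombination K (fun i : s => a i)) ∘ₗ L, fun i hi => ?_⟩
  have := LinearMap.congr_fun hL (Finsupp.single ⟨i, hi⟩ 1)
  simp only [LinearMap.comp_apply, Finsupp.linearCombination_single, one_smul,
    LinearMap.id_apply] at this
  rw [LinearMap.comp_apply, this]
  simp

/-- Adding a fixed vector to all members of an independent family: drop one member. -/
theorem shift_indep {f : ι → V} (hf : LinearIndependent K f) (a : V) :
    ∃ S : Set ι, Sᶜ.encard ≤ 1 ∧ LinearIndepOn K (fun i => f i + a) S := by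
  classical
  by_cases ha : a = 0
  · exact ⟨univ, by simp, by simpa [ha] using hf⟩
  set w : Option ι → V := fun o => o.elim a f with hw
  have h1 : LinearIndepOn K w ((∅ : Set (Option ι)) ∪ (some '' univ)) := by
    rw [empty_union, image_univ]
    exact (linearIndepOn_range_iff (Option.some_injective ι) w).2 hf
  have h2 : LinearIndepOn K w (insert none (∅ : Set (Option ι))) := by
    have h3 : insert none (∅ : Set (Option ι)) = {none} := by simp
    rw [h3]
    exact LinearIndepOn.singleton ha
  obtain ⟨B', hB', hc, h3⟩ := exchange_one h1 h2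
  refine ⟨some ⁻¹' B', ?_, ?_⟩
  · have h4 : some '' ((some ⁻¹' B')ᶜ) ⊆ some '' univ \ B' := by
      rintro _ ⟨i, hi, rfl⟩
      exact ⟨⟨i, trivial, rfl⟩, hi⟩
    rw [← (Option.some_injective ι).encard_image]
    exact (encard_le_encard h4).trans hc
  · rw [empty_union] at h3
    rw [linearIndepOn_iff]
    intro l hl h0
    have hn : none ∉ B' := by
      intro h
      obtain ⟨i, _, hi⟩ := hB' h
      exact Option.some_ne_none i hi
    have hns : a ∉ span K (w '' B') := h3.notMem_span_of_insert hn
    have h4 : Finsupp.linearCombination K (fun i => f i + a) l =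
        Finsupp.linearCombination K f l + (l.sum fun _ c => c) • a := by
      simp only [Finsupp.linearCombination_apply, smul_add, Finsupp.sum_add]
      congr 1
      rw [Finsupp.sum, Finsupp.sum, Finset.sum_smul]
    have h5 : Finsupp.linearCombination K f l ∈ span K (w '' B') := by
      rw [Finsupp.linearCombination_apply]
      refine Submodule.sum_mem _ fun i hi => Submodule.smul_mem _ _ (subset_span ⟨some i, hl hi, rfl⟩)
    have h6 : (l.sum fun _ c => c) = 0 := by
      by_contra hne
      apply hns
      rw [h4] at h0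
      have h7 : (l.sum fun _ c => c) • a ∈ span K (w '' B') := by
        rw [← neg_mem_iff, ← eq_neg_of_add_eq_zero_left h0]
        exact h5
      exact (Submodule.smul_mem_iff _ hne).1 h7
    rw [h4, h6, zero_smul, add_zero] at h0
    exact linearIndependent_iff.1 hf l h0

end Pool.Agent.J4.H59.CC
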