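import Pool.Agent.J4.H59.CC.Func

set_option autoImplicit false

/-!
# The topological group
-/

namespace Pool.Agent.J4.H59.CC

open Submodule Set Filter Topology

/-- the set of functionals -/
abbrev Gam : Type := {φ : J → ZMod 2 // Good φ}

/-- the homomorphism to the compact group `2 ^ Gam` -/
noncomputable def emb : Multiplicative G →* Multiplicative (Gam → ZMod 2) :=
  AddMonoidHom.toMultiplicative
    (AddMonoidHom.mk' (fun u φ => LL φ.1 u) fun u v => by
      funext φ
      simp)

theorem emb_apply (u : G) (φ : Gam) :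
    Multiplicative.toAdd (emb (Multiplicative.ofAdd u)) φ = LL φ.1 u := rfl

/-- the topology -/
@[reducible] noncomputable def top : TopologicalSpace (Multiplicative G) :=
  TopologicalSpace.induced emb inferInstance

theorem emb_injective : Function.Injective emb := by
  rw [injective_iff_map_eq_one]
  intro a ha
  by_contra hne
  have hu : (Multiplicative.toAdd a : G) ≠ 0 := fun h => hne (by
    rw [← ofAdd_toAdd a, h]; rfl)
  obtain ⟨φ, hφ, h1, _⟩ := exists_good {Multiplicative.toAdd a} (by
    rw [Finset.coe_singleton]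
    exact LinearIndepOn.singleton hu) (fun _ => 1)
  have h2 := h1 _ (Finset.mem_singleton_self _)
  have h3 : LL φ (Multiplicative.toAdd a) = 0 :=
    congrFun (congrArg Multiplicative.toAdd ha) ⟨φ, hφ⟩
  rw [h3] at h2
  exact zero_ne_one h2

theorem isEmbedding_emb : @IsEmbedding _ _ top _ emb :=
  let _ := top
  ⟨⟨rfl⟩, emb_injective⟩

theorem tendsto_seq (j : J) (hj : LinearIndependent (ZMod 2) (seq j)) :
    Tendsto (fun ω => Multiplicative.ofAdd (seq j ω)) (pp j : Filter Om)
      (@nhds _ top (Multiplicative.ofAdd (Finsupp.single j 1))) := by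
  let _ := top
  rw [isEmbedding_emb.isInducing.tendsto_nhds_iff]
  have h1 : Tendsto (fun ω => Multiplicative.toAdd (emb (Multiplicative.ofAdd (seq j ω))))
      (pp j : Filter Om) (𝓝 (Multiplicative.toAdd (emb (Multiplicative.ofAdd
        (Finsupp.single j 1))))) := by
    rw [tendsto_pi_nhds]
    intro φ
    apply tendsto_nhds_of_eventually_eq
    filter_upwards [φ.2 j hj] with ω hω
    rw [emb_apply, emb_apply, LL_single]
    exact hω
  exact (continuous_ofAdd.tendsto _).comp h1

theorem infinite_indep {S : Set G} (hS : S.Infinite) :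
    ∃ g : Om → G, LinearIndependent (ZMod 2) g ∧ ∀ ω, g ω ∈ S := by
  obtain ⟨b, hb, -, hSb, hli⟩ :=
    exists_linearIndepOn_extension (linearIndepOn_empty (ZMod 2) (id : G → G)) (empty_subset S)
  have hbi : b.Infinite := by
    intro hfin
    apply hS
    have h1 : (span (ZMod 2) b : Set G).Finite := by
      have : Module.Finite (ZMod 2) (span (ZMod 2) b) := Module.Finite.span_of_finite _ hfin
      have : Finite (span (ZMod 2) b) := Module.finite_of_finite (ZMod 2)
      exact Set.toFinite _
    refine h1.subset fun s hs => ?_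
    have := hSb (mem_image_of_mem id hs)
    rwa [image_id] at this
  have : Infinite b := hbi.to_subtype
  obtain ⟨e⟩ : Nonempty (Om ↪ b) := by
    obtain ⟨f⟩ : Nonempty (Om ↪ ℕ) := ⟨⟨_, (Encodable.encode_injective (α := Om))⟩⟩
    exact ⟨f.trans (Infinite.natEmbedding b)⟩
  exact ⟨fun ω => (e ω : G), (show LinearIndependent (ZMod 2) (fun x : b => (x : G)) from hli).comp
    e e.injective, fun ω => hb (e ω).2⟩

theorem countablyCompact : @CountablyCompactSpace (Multiplicative G) top := by
  let _ := top
  have : T2Space (Multiplicative G) := isEmbedding_emb.t2Space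
  refine ⟨isCountablyCompact_iff_infinite_subset_has_accPt.2 fun B _ hB => ?_⟩
  obtain ⟨g, hg, hgB⟩ := infinite_indep (S := Multiplicative.ofAdd ⁻¹' B)
    (hB.preimage fun x _ => ⟨Multiplicative.toAdd x, rfl⟩)
  obtain ⟨j, rfl⟩ := exists_seq g
  refine ⟨Multiplicative.ofAdd (Finsupp.single j 1), mem_univ _, ?_⟩
  rw [accPt_iff_frequently]
  refine (tendsto_seq j hg).frequently ?_
  apply Eventually.frequently
  have h1 : {ω | seq j ω = Finsupp.single j 1}ᶜ ∈ (pp j : Filter Om) := by
    apply pp_cofinite j
    rw [mem_cofinite, compl_compl]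
    refine Set.Subsingleton.finite ?_
    intro a ha b hb
    exact hg.injective (Eq.trans ha (Eq.symm hb))
  filter_upwards [h1] with ω hω
  exact ⟨fun h => hω (Multiplicative.ofAdd.injective h), hgB ω⟩

theorem not_countablyCompact_prod :
    ¬ @CountablyCompactSpace (Multiplicative G × Multiplicative G)
      (@instTopologicalSpaceProd _ _ top top) := by
  classical
  let _ := top
  intro h
  obtain ⟨⟨u, v⟩, -, hcl⟩ := h.isCountablyCompact_univ.seq_clusterPt
    (fun n : ℕ => (Multiplicative.ofAdd (Finsupp.single (fr (n, true)) (1 : ZMod 2)),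
      Multiplicative.ofAdd (Finsupp.single (fr (n, false)) (1 : ZMod 2))))
    (Eventually.of_forall fun _ => mem_univ _)
  -- a functional which vanishes on `u` and `v`
  obtain ⟨b, hb, -, hSb, hli⟩ :=
    exists_linearIndepOn_extension (linearIndepOn_empty (ZMod 2) (id : G → G))
      (empty_subset {Multiplicative.toAdd u, Multiplicative.toAdd v})
  have hbf : b.Finite := (Set.toFinite _).subset hb
  obtain ⟨φ, hφ, h1, h2⟩ := exists_good hbf.toFinset (by rwa [hbf.coe_toFinset]) (fun _ => 0)
  have h3 : ∀ w ∈ ({Multiplicative.toAdd u, Multiplicative.toAdd v} : Set G), LL φ w = 0 := by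
    intro w hw
    have h4 : w ∈ span (ZMod 2) b := by
      have := hSb (mem_image_of_mem id hw)
      rwa [image_id] at this
    have h5 : span (ZMod 2) b ≤ LinearMap.ker (LL φ) := by
      rw [span_le]
      intro y hy
      exact h1 y (hbf.mem_toFinset.2 hy)
    exact h5 h4
  have hcont : Continuous (fun a : Multiplicative G => LL φ (Multiplicative.toAdd a)) := by
    have h4 : Continuous (emb : Multiplicative G → Multiplicative (Gam → ZMod 2)) :=
      continuous_induced_dom
    have h5 := (continuous_apply (⟨φ, hφ⟩ : Gam)).comp (continuous_toAdd.comp h4)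
    exact h5
  have hO : {q : Multiplicative G × Multiplicative G | LL φ (Multiplicative.toAdd q.1) = 0 ∧
      LL φ (Multiplicative.toAdd q.2) = 0} ∈ 𝓝 (u, v) := by
    apply IsOpen.mem_nhds
    · apply IsOpen.inter
      · exact (isOpen_discrete ({0} : Set (ZMod 2))).preimage (hcont.comp continuous_fst)
      · exact (isOpen_discrete ({0} : Set (ZMod 2))).preimage (hcont.comp continuous_snd)
    · exact ⟨h3 _ (by simp), h3 _ (by simp)⟩
  have h6 := hcl.frequently hO
  obtain ⟨n, hn, hn2⟩ := (h6.and_eventually h2).exists
  have h7 : LL φ (Finsupp.single (fr (n, true)) 1) = 0 := hn.1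
  have h8 : LL φ (Finsupp.single (fr (n, false)) 1) = 0 := hn.2
  rw [LL_single] at h7 h8
  rcases hn2 with hn2 | hn2
  · rw [h7] at hn2; exact zero_ne_one hn2
  · rw [h8] at hn2; exact zero_ne_one hn2

/-- The main theorem. -/
theorem main : ∃ (G : Type) (_ : CommGroup G) (_ : TopologicalSpace G), IsTopologicalGroup G ∧
    T35Space G ∧ CountablyCompactSpace G ∧ ¬ CountablyCompactSpace (G × G) := by
  let _ := top
  refine ⟨Multiplicative G, inferInstance, top, topologicalGroup_induced emb, ?_,
    countablyCompact, not_countablyCompact_prod⟩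
  have : T2Space (Multiplicative G) := isEmbedding_emb.t2Space
  have : CompletelyRegularSpace (Multiplicative G) :=
    isEmbedding_emb.isInducing.completelyRegularSpace
  exact {}

end Pool.Agent.J4.H59.CC
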