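import Pool.Agent.J4.H59.CC.Step

set_option autoImplicit false

/-!
# The selection lemma
-/

namespace Pool.Agent.J4.H59.CC

open Submodule Set

variable {K V : Type*} [Field K] [AddCommGroup V] [Module K V]

/-- the `n`-th block -/
def blk (n : ℕ) (s : Finset (Fin (ss n))) : Finset Om := s.map ⟨fun i => ⟨n, i⟩, fun i j h => by
  simpa using h⟩

theorem mem_blk {n : ℕ} {s : Finset (Fin (ss n))} {ω : Om} :
    ω ∈ blk n s ↔ ∃ i ∈ s, (⟨n, i⟩ : Om) = ω := by
  simp only [blk, Finset.mem_map]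
  rfl

/-- splitting of one block -/
theorem split_block (g : Om → V) (x : ℕ × Bool → V) (hx : LinearIndependent K x) (n : ℕ)
    (S : Set (Fin (ss n))) (hS : LinearIndepOn K (fun i => g ⟨n, i⟩) S) :
    ∃ P : Bool → Finset (Fin (ss n)), (∀ i ∈ S, i ∈ P true ∨ i ∈ P false) ∧
      ∀ t, LinearIndepOn K (fam g x)
        (Sum.inr '' {i | i.2 = t} ∪ Sum.inl '' (blk n (P t) : Set Om)) := by
  classical
  have hinr : LinearIndepOn K (fam g x) (range Sum.inr) :=
    (linearIndepOn_range_iff Sum.inr_injective (fam g x)).2 hx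
  -- the spans
  set X : Bool → Submodule K V := fun t => span K (x '' {i | i.2 = t}) with hX
  have hdis : Disjoint (X false) (X true) := by
    rw [hX]
    refine hx.disjoint_span_image ?_
    rw [Set.disjoint_left]
    rintro i (h1 : i.2 = false) (h2 : i.2 = true)
    rw [h1] at h2
    exact absurd h2 (by simp)
  have : Fintype S := Fintype.ofFinite S
  obtain ⟨s, hs1, hs2⟩ := partition (fun i : S => g ⟨n, i⟩) hS (X false) (X true) hdis
  -- transfer
  have key : ∀ (t : Bool) (u : Set S), LinearIndepOn K ((X t).mkQ ∘ fun i : S => g ⟨n, i⟩) u →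
      LinearIndepOn K (fam g x) (Sum.inr '' {i | i.2 = t} ∪
        Sum.inl '' ((fun i : Fin (ss n) => (⟨n, i⟩ : Om)) '' (Subtype.val '' u))) := by
    intro t u hu
    apply LinearIndepOn.union_of_quotient
    · exact hinr.mono (image_subset_range _ _)
    · have e1 : fam g x '' (Sum.inr '' {i | i.2 = t}) = x '' {i | i.2 = t} := by
        rw [← image_comp]; rfl
      rw [e1]
      rw [← image_comp, ← image_comp]
      apply LinearIndepOn.image_of_comp
      exact hu
  refine ⟨fun t => if t then (Finset.univ.filter (fun i => ∃ h : i ∈ S, (⟨i, h⟩ : S) ∉ s))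
    else (Finset.univ.filter (fun i => ∃ h : i ∈ S, (⟨i, h⟩ : S) ∈ s)), ?_, ?_⟩
  · intro i hi
    by_cases h : (⟨i, hi⟩ : S) ∈ s
    · right
      simp [hi, h]
    · left
      simp [hi, h]
  · intro t
    cases t
    · refine (key false s hs1).mono (union_subset_union_right _ ?_)
      rintro _ ⟨ω, hω, rfl⟩
      have hω' : ω ∈ blk n _ := hω
      obtain ⟨i, hi, rfl⟩ := mem_blk.1 hω'
      simp only [Bool.false_eq_true, if_false, Finset.mem_filter, Finset.mem_univ, true_and] at hi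
      obtain ⟨h, hi⟩ := hi
      exact ⟨_, ⟨i, ⟨⟨i, h⟩, hi, rfl⟩, rfl⟩, rfl⟩
    · refine (key true _ hs2).mono (union_subset_union_right _ ?_)
      rintro _ ⟨ω, hω, rfl⟩
      have hω' : ω ∈ blk n _ := hω
      obtain ⟨i, hi, rfl⟩ := mem_blk.1 hω'
      simp only [if_true, Finset.mem_filter, Finset.mem_univ, true_and] at hi
      obtain ⟨h, hi⟩ := hi
      exact ⟨_, ⟨i, ⟨⟨i, h⟩, hi, rfl⟩, rfl⟩, rfl⟩

/-- the recursion over the blocks -/
theorem recursion (g : Om → V) (x : ℕ × Bool → V) (hx : LinearIndependent K x)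
    (t : ℕ → Bool) (k : (n : ℕ) → Finset (Fin (ss n)))
    (hk : ∀ n, LinearIndepOn K (fam g x)
        (Sum.inr '' {i | i.2 = t n} ∪ Sum.inl '' (blk n (k n) : Set Om))) :
    ∃ (U : Set Om) (z : ℕ → Bool), (∀ n, ((blk n (k n) : Set Om) \ U).encard ≤ 2 * NN n) ∧
      LinearIndepOn K (fam g x) (Sum.inl '' U ∪ Sum.inr '' {i | i.2 = z i.1}) := by
  classical
  -- the invariant
  let Inv : ℕ → Finset Om × Finset (ℕ × Bool) → Prop := fun n σ =>
    σ.1.card ≤ NN n ∧ σ.2.card ≤ NN n ∧ (∀ j, ¬ ((j, false) ∈ σ.2 ∧ (j, true) ∈ σ.2)) ∧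
    LinearIndepOn K (fam g x) (Sum.inl '' (σ.1 : Set Om) ∪ Sum.inr '' ((σ.2 : Set (ℕ × Bool))ᶜ))
  have hstep : ∀ n σ, Inv n σ → ∃ σ', Inv (n + 1) σ' ∧ σ.1 ⊆ σ'.1 ∧ σ.2 ⊆ σ'.2 ∧
      (blk n (k n) \ σ'.1).card ≤ 2 * NN n := by
    rintro n ⟨T, R⟩ ⟨hT, hR, hp, hi⟩
    have hp' : ∀ (t : Bool) j, (j, t) ∈ R → (j, !t) ∉ R := by
      intro t j h1 h2
      cases t
      · exact hp j ⟨h1, h2⟩
      · exact hp j ⟨h2, h1⟩
    obtain ⟨T', R', h1, h2, h3, h4, h5, h6⟩ := step g x hx (t n) (blk n (k n)) T R (hp' (t n))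
      (hk n) hi
    have hc : (blk n (k n)).card ≤ ss n := by
      rw [blk, Finset.card_map]
      exact (Finset.card_le_univ _).trans (by simp)
    refine ⟨(T ∪ T', R'), ⟨?_, ?_, ?_, h6⟩, Finset.subset_union_left, h3, ?_⟩
    · refine (Finset.card_union_le _ _).trans ?_
      rw [NN_succ]
      exact add_le_add hT ((Finset.card_le_card h1).trans hc)
    · rw [NN_succ]
      exact h4.trans (add_le_add hR hc)
    · rintro j ⟨ha, hb⟩
      cases ht : t n
      · rw [ht] at h5
        exact h5 j ha hb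
      · rw [ht] at h5
        exact h5 j hb ha
    · refine (Finset.card_le_card ?_).trans (h2.trans ?_)
      · intro ω hω
        simp only [Finset.mem_sdiff, Finset.mem_union, not_or] at hω ⊢
        exact ⟨hω.1, hω.2.2⟩
      · simp only at hT hR
        omega
  have h0 : Inv 0 (∅, ∅) := by
    refine ⟨by simp, by simp, by simp, ?_⟩
    have hinr : LinearIndepOn K (fam g x) (range Sum.inr) :=
      (linearIndepOn_range_iff Sum.inr_injective (fam g x)).2 hx
    refine hinr.mono ?_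
    rintro _ (⟨i, hi, rfl⟩ | ⟨i, hi, rfl⟩)
    · simp at hi
    · exact ⟨i, rfl⟩
  choose! F hF using hstep
  let σ : ℕ → Finset Om × Finset (ℕ × Bool) := fun n => Nat.rec (∅, ∅) (fun n s => F n s) n
  have hσ : ∀ n, Inv n (σ n) := by
    intro n
    induction n with
    | zero => exact h0
    | succ n ih => exact (hF n (σ n) ih).1
  have hσ1 : ∀ n, (σ n).1 ⊆ (σ (n + 1)).1 := fun n => (hF n (σ n) (hσ n)).2.1
  have hσ2 : ∀ n, (σ n).2 ⊆ (σ (n + 1)).2 := fun n => (hF n (σ n) (hσ n)).2.2.1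
  have hσ3 : ∀ n, (blk n (k n) \ (σ (n + 1)).1).card ≤ 2 * NN n :=
    fun n => (hF n (σ n) (hσ n)).2.2.2
  have hm1 : Monotone (fun n => (σ n).1) := monotone_nat_of_le_succ hσ1
  have hm2 : Monotone (fun n => (σ n).2) := monotone_nat_of_le_succ hσ2
  refine ⟨⋃ n, ((σ n).1 : Set Om), fun j => if ∃ n, (j, false) ∈ (σ n).2 then true else false,
    ?_, ?_⟩
  · intro n
    have h1 : ((blk n (k n) : Set Om) \ ⋃ n, ((σ n).1 : Set Om)) ⊆
        ((blk n (k n) \ (σ (n + 1)).1 : Finset Om) : Set Om) := by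
      intro ω hω
      simp only [Finset.coe_sdiff, mem_sdiff, Finset.mem_coe]
      exact ⟨hω.1, fun h => hω.2 (mem_iUnion.2 ⟨n + 1, h⟩)⟩
    refine (encard_le_encard h1).trans ?_
    rw [encard_coe_eq_coe_finsetCard]
    exact_mod_cast hσ3 n
  · have h1 : LinearIndepOn K (fam g x) (⋃ n, (Sum.inl '' ((σ n).1 : Set Om) ∪
        Sum.inr '' {i : ℕ × Bool | ∀ m, i ∉ (σ m).2})) := by
      apply linearIndepOn_iUnion_of_directed
      · apply Monotone.directed_le
        intro a b hab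
        exact union_subset_union_left _ (image_mono (by exact_mod_cast hm1 hab))
      · intro n
        refine (hσ n).2.2.2.mono (union_subset_union_right _ (image_mono ?_))
        intro i hi
        exact hi n
    refine h1.mono ?_
    rintro _ (⟨ω, hω, rfl⟩ | ⟨⟨j, b⟩, hj, rfl⟩)
    · obtain ⟨n, hn⟩ := mem_iUnion.1 hω
      exact mem_iUnion.2 ⟨n, Or.inl ⟨ω, hn, rfl⟩⟩
    · refine mem_iUnion.2 ⟨0, Or.inr ⟨(j, b), ?_, rfl⟩⟩
      intro m hm
      have hj' : b = if ∃ n, (j, false) ∈ (σ n).2 then true else false := hj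
      split_ifs at hj' with h
      · obtain ⟨n, hn⟩ := h
        subst hj'
        exact (hσ (max n m)).2.2.1 j ⟨hm2 (le_max_left n m) hn, hm2 (le_max_right n m) hm⟩
      · subst hj'
        exact h ⟨m, hm⟩

/-- the number of indices which may be dropped in block `n` -/
def ww (n : ℕ) : ℕ := 2 * NN n + 1

/-- **Selection lemma.** -/
theorem selection {D : Type*} (owner : ℕ → Option D) (p : D → Ultrafilter Om)
    (hp : ∀ (n : ℕ) (d : D), owner n = some d →
      ∀ X : Set Om, (∀ m, owner m = some d → {i : Fin (ss m) | (⟨m, i⟩ : Om) ∉ X}.encard ≤ ww m) →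
        X ∈ p d)
    (g : Om → V) (x : ℕ × Bool → V) (hx : LinearIndependent K x)
    (hg : ∀ (n : ℕ) (d : D), owner n = some d → ∃ S : Set (Fin (ss n)), Sᶜ.encard ≤ 1 ∧
      LinearIndepOn K (fun i => g ⟨n, i⟩) S) :
    ∃ (U : Set Om) (z : ℕ → Bool),
      (∀ (n : ℕ) (d : D), owner n = some d → {ω ∈ U | owner ω.1 = some d} ∈ p d) ∧
      LinearIndepOn K (fam g x) (Sum.inl '' U ∪ Sum.inr '' {i | i.2 = z i.1}) := by
  classical
  -- the splittings
  have hsplit : ∀ n : ℕ, ∃ P : Bool → Finset (Fin (ss n)),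
      (owner n ≠ none → {i : Fin (ss n) | i ∉ P true ∧ i ∉ P false}.encard ≤ 1) ∧
      ∀ t, LinearIndepOn K (fam g x)
        (Sum.inr '' {i | i.2 = t} ∪ Sum.inl '' (blk n (P t) : Set Om)) := by
    intro n
    rcases ho : owner n with _ | d
    · have hinr : LinearIndepOn K (fam g x) (range Sum.inr) :=
        (linearIndepOn_range_iff Sum.inr_injective (fam g x)).2 hx
      refine ⟨fun _ => ∅, fun h => absurd rfl h, fun t => ?_⟩
      refine hinr.mono ?_
      rintro _ (⟨i, _, rfl⟩ | ⟨ω, hω, _⟩)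
      · exact ⟨i, rfl⟩
      · simp [blk] at hω
    · obtain ⟨S, hS1, hS2⟩ := hg n d ho
      obtain ⟨P, hP1, hP2⟩ := split_block g x hx n S hS2
      refine ⟨P, fun _ => ?_, hP2⟩
      refine (encard_le_encard ?_).trans hS1
      intro i hi hiS
      rcases hP1 i hiS with h | h
      · exact hi.1 h
      · exact hi.2 h
  choose P hP1 hP2 using hsplit
  -- the type of `d`
  let τ : D → Bool := fun d =>
    if {ω : Om | owner ω.1 = some d ∧ ω.2 ∈ P ω.1 true} ∈ p d then true else false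
  have hτ : ∀ (n : ℕ) (d : D), owner n = some d →
      {ω : Om | owner ω.1 = some d ∧ ω.2 ∈ P ω.1 (τ d)} ∈ p d := by
    intro n d ho
    by_cases h : {ω : Om | owner ω.1 = some d ∧ ω.2 ∈ P ω.1 true} ∈ p d
    · have : τ d = true := by simp only [τ, if_pos h]
      rw [this]
      exact h
    · have h0 : τ d = false := by simp only [τ, if_neg h]
      rw [h0]
      have h1 : {ω : Om | owner ω.1 = some d ∧ ω.2 ∈ P ω.1 true}ᶜ ∈ p d :=
        Ultrafilter.compl_mem_iff_notMem.2 h
      have h2 : {ω : Om | owner ω.1 = some d ∧ (ω.2 ∈ P ω.1 true ∨ ω.2 ∈ P ω.1 false)} ∈ p d := by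
        apply hp n d ho
        intro m hm
        refine (encard_le_encard ?_).trans ((hP1 m (by rw [hm]; simp)).trans ?_)
        · intro i hi
          simp only [mem_ofPred_eq, hm, true_and, not_or] at hi ⊢
          exact hi
        · simp [ww]
      filter_upwards [h1, h2] with ω h3 h4
      refine ⟨h4.1, ?_⟩
      rcases h4.2 with h5 | h5
      · exact absurd ⟨h4.1, h5⟩ h3
      · exact h5
  let t : ℕ → Bool := fun n => match owner n with
    | some d => τ d
    | none => true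
  obtain ⟨U, z, hU, hz⟩ := recursion g x hx t (fun n => P n (t n)) (fun n => hP2 n (t n))
  refine ⟨U, z, fun n d ho => ?_, hz⟩
  have h1 : {ω : Om | ω ∈ U ∨ ω.2 ∉ P ω.1 (t ω.1)} ∈ p d := by
    apply hp n d ho
    intro m hm
    have h2 : {i : Fin (ss m) | (⟨m, i⟩ : Om) ∉ {ω : Om | ω ∈ U ∨ ω.2 ∉ P ω.1 (t ω.1)}} ⊆
        (fun i : Fin (ss m) => (⟨m, i⟩ : Om)) ⁻¹' ((blk m (P m (t m)) : Set Om) \ U) := by
      intro i hi
      simp only [mem_ofPred_eq, not_or, not_not] at hi
      exact ⟨by simpa [mem_blk] using hi.2, hi.1⟩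
    refine (encard_le_encard h2).trans ((encard_preimage_le _ ?_ _).trans ((hU m).trans ?_))
    · intro i j h
      simpa using h
    · simp only [ww]
      push_cast
      exact le_self_add
  filter_upwards [h1, hτ n d ho] with ω h2 h3
  refine ⟨?_, h3.1⟩
  rcases h2 with h2 | h2
  · exact h2
  · exfalso
    apply h2
    have : t ω.1 = τ d := by simp only [t, h3.1]
    rw [this]
    exact h3.2

end Pool.Agent.J4.H59.CC
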