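import Pool.Agent.J4.H59.CC.Lin

set_option autoImplicit false

/-!
# One step of the selection
-/

namespace Pool.Agent.J4.H59.CC

open Submodule Set

/-- the number of indices in the blocks before the `n`-th one -/
def NN : ℕ → ℕ
  | 0 => 0
  | n + 1 => NN n + (n * (2 * NN n + 1) + 1)

/-- the size of the `n`-th block -/
def ss (n : ℕ) : ℕ := n * (2 * NN n + 1) + 1

theorem NN_succ (n : ℕ) : NN (n + 1) = NN n + ss n := rfl

/-- the index set of the sequences, a disjoint union of finite blocks -/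
abbrev Om : Type := Σ n : ℕ, Fin (ss n)

variable {K V : Type*} [Field K] [AddCommGroup V] [Module K V]

/-- all vectors in one family -/
def fam (g : Om → V) (x : ℕ × Bool → V) : Om ⊕ (ℕ × Bool) → V := Sum.elim g x

theorem encard_preimage_le {α β : Type*} (f : α → β) (hf : Function.Injective f) (s : Set β) :
    (f ⁻¹' s).encard ≤ s.encard := by
  rw [← hf.encard_image]
  exact encard_le_encard (image_preimage_subset f s)

theorem step (g : Om → V) (x : ℕ × Bool → V) (hx : LinearIndependent K x) (t : Bool)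
    (Kf T : Finset Om) (R : Finset (ℕ × Bool)) (hR : ∀ j, (j, t) ∈ R → (j, !t) ∉ R)
    (hK : LinearIndepOn K (fam g x) (Sum.inr '' {i | i.2 = t} ∪ Sum.inl '' (Kf : Set Om)))
    (hT : LinearIndepOn K (fam g x) (Sum.inl '' (T : Set Om) ∪ Sum.inr '' ((R : Set (ℕ × Bool))ᶜ))) :
    ∃ (T' : Finset Om) (R' : Finset (ℕ × Bool)), T' ⊆ Kf ∧ (Kf \ T').card ≤ R.card + T.card ∧
      R ⊆ R' ∧ R'.card ≤ R.card + Kf.card ∧ (∀ j, (j, t) ∈ R' → (j, !t) ∉ R') ∧
      LinearIndepOn K (fam g x)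
        (Sum.inl '' ((T ∪ T' : Finset Om) : Set Om) ∪ Sum.inr '' ((R' : Set (ℕ × Bool))ᶜ)) := by
  classical
  set C1 : Finset (Om ⊕ (ℕ × Bool)) :=
    (R.filter (fun i => i.2 = t)).image (fun i => Sum.inr (i.1, !t)) with hC1
  have hC1c : C1.card ≤ R.card := Finset.card_image_le.trans (Finset.card_filter_le _ _)
  have hinr : LinearIndepOn K (fam g x) (range Sum.inr) :=
    (linearIndepOn_range_iff Sum.inr_injective (fam g x)).2 hx
  obtain ⟨B1, hB1, hc1, h1⟩ := exchange C1 hK (hinr.mono (by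
    rintro _ (⟨i, _, rfl⟩ | hi)
    · exact ⟨i, rfl⟩
    · simp only [hC1, Finset.coe_image, mem_image] at hi
      obtain ⟨i, _, rfl⟩ := hi
      exact ⟨_, rfl⟩))
  set A2 : Set (Om ⊕ (ℕ × Bool)) := Sum.inr '' {i | i ∉ R ∧ (i.2 = t ∨ (i.1, t) ∈ R)} with hA2
  have hA2s : A2 ⊆ Sum.inr '' {i : ℕ × Bool | i.2 = t} ∪ (C1 : Set (Om ⊕ (ℕ × Bool))) := by
    rintro _ ⟨⟨j, b⟩, ⟨hj1, hj2⟩, rfl⟩
    rcases hj2 with hj2 | hj2
    · exact Or.inl ⟨_, hj2, rfl⟩
    · by_cases hb : b = t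
      · exact Or.inl ⟨_, hb, rfl⟩
      · right
        have hb' : b = !t := by
          cases b <;> cases t <;> simp_all
        simp only [hC1, Finset.coe_image, mem_image, Finset.coe_filter, mem_ofPred_eq]
        exact ⟨(j, t), ⟨hj2, rfl⟩, by rw [hb']⟩
  have hA2T : A2 ∪ Sum.inl '' (T : Set Om) ⊆
      Sum.inl '' (T : Set Om) ∪ Sum.inr '' ((R : Set (ℕ × Bool))ᶜ) := by
    rintro _ (⟨i, hi, rfl⟩ | hi)
    · exact Or.inr ⟨i, hi.1, rfl⟩
    · exact Or.inl hi
  obtain ⟨B2, hB2, hc2, h2⟩ := exchange (A := A2) (B := B1) (T.image Sum.inl)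
    (h1.mono (by
      rintro z (hz | hz)
      · rcases hA2s hz with h | h
        · exact Or.inl (Or.inl h)
        · exact Or.inr h
      · exact Or.inl (Or.inr hz)))
    (hT.mono (by rw [Finset.coe_image]; exact hA2T))
  set T2 : Finset Om := Kf.filter (fun ω => Sum.inl ω ∈ B2) with hT2
  have hT2B : ((T2.image Sum.inl : Finset (Om ⊕ (ℕ × Bool))) : Set (Om ⊕ (ℕ × Bool))) = B2 := by
    ext z
    simp only [hT2, Finset.coe_image, mem_image, Finset.coe_filter, mem_ofPred_eq]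
    constructor
    · rintro ⟨ω, ⟨_, h⟩, rfl⟩
      exact h
    · intro hz
      obtain ⟨ω, hω, rfl⟩ := hB1 (hB2 hz)
      exact ⟨ω, ⟨hω, hz⟩, rfl⟩
  set B3 : Set (Om ⊕ (ℕ × Bool)) := Sum.inr '' {i | i ∉ R ∧ i.2 = (!t) ∧ (i.1, t) ∉ R} with hB3
  obtain ⟨B4, hB4, hc4, h4⟩ := exchange (A := A2 ∪ Sum.inl '' (T : Set Om)) (B := B3)
    (T2.image Sum.inl)
    (hT.mono (by
      rintro z (hz | hz)
      · exact hA2T hz
      · obtain ⟨i, hi, rfl⟩ := hz
        exact Or.inr ⟨i, hi.1, rfl⟩))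
    (h2.mono (by
      rw [hT2B]
      rintro z ((hz | hz) | hz)
      · exact Or.inl (Or.inl hz)
      · exact Or.inr (by simpa using hz)
      · exact Or.inl (Or.inr hz)))
  -- the new removed set
  have hfin : (Sum.inr ⁻¹' (B3 \ B4) : Set (ℕ × Bool)).Finite := by
    refine finite_of_encard_le_coe (k := (T2.image (Sum.inl : Om → Om ⊕ (ℕ × Bool))).card) ?_
    exact (encard_preimage_le _ Sum.inr_injective _).trans hc4
  have hmem : ∀ i : ℕ × Bool, i ∈ hfin.toFinset ↔ (i ∉ R ∧ i.2 = (!t) ∧ (i.1, t) ∉ R) ∧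
      Sum.inr i ∉ B4 := by
    intro i
    rw [Finite.mem_toFinset]
    constructor
    · rintro ⟨⟨i', hi', he⟩, h⟩
      rw [Sum.inr.injEq] at he
      subst he
      exact ⟨hi', h⟩
    · rintro ⟨h, h'⟩
      exact ⟨⟨i, h, rfl⟩, h'⟩
  refine ⟨T2, R ∪ hfin.toFinset, Finset.filter_subset _ _, ?_, Finset.subset_union_left, ?_, ?_, ?_⟩
  · -- count
    have h5 : ((Kf \ T2 : Finset Om) : Set Om).encard ≤ R.card + T.card := by
      have h6 : Sum.inl '' ((Kf \ T2 : Finset Om) : Set Om) ⊆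
          (Sum.inl '' (Kf : Set Om) \ B1) ∪ (B1 \ B2) := by
        rintro _ ⟨ω, hω, rfl⟩
        simp only [Finset.coe_sdiff, mem_sdiff, Finset.mem_coe, hT2, Finset.mem_filter, not_and] at hω
        by_cases hb : Sum.inl ω ∈ B1
        · exact Or.inr ⟨hb, hω.2 hω.1⟩
        · exact Or.inl ⟨⟨ω, hω.1, rfl⟩, hb⟩
      rw [← Sum.inl_injective.encard_image (β := Om ⊕ (ℕ × Bool))]
      refine (encard_le_encard h6).trans ((encard_union_le _ _).trans (add_le_add ?_ ?_))
      · exact hc1.trans (by exact_mod_cast hC1c)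
      · exact hc2.trans (by exact_mod_cast Finset.card_image_le)
    rw [encard_coe_eq_coe_finsetCard] at h5
    exact_mod_cast h5
  · refine (Finset.card_union_le _ _).trans (Nat.add_le_add_left ?_ _)
    have h5 : ((hfin.toFinset : Finset (ℕ × Bool)) : Set (ℕ × Bool)).encard ≤ Kf.card := by
      rw [Finite.coe_toFinset]
      refine (encard_preimage_le _ Sum.inr_injective _).trans (hc4.trans ?_)
      exact_mod_cast Finset.card_image_le.trans (Finset.card_filter_le _ _)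
    rw [encard_coe_eq_coe_finsetCard] at h5
    exact_mod_cast h5
  · intro j hj hj'
    rw [Finset.mem_union, hmem] at hj hj'
    rcases hj with hj | hj
    · rcases hj' with hj' | hj'
      · exact hR j hj hj'
      · exact hj'.1.2.2 hj
    · have := hj.1.2.1
      simp at this
  · refine h4.mono ?_
    rintro _ (⟨ω, hω, rfl⟩ | ⟨i, hi, rfl⟩)
    · simp only [Finset.coe_union, mem_union, Finset.mem_coe] at hω
      rcases hω with hω | hω
      · exact Or.inl (Or.inl (Or.inr ⟨ω, hω, rfl⟩))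
      · exact Or.inr (by simpa using hω)
    · have hi' : i ∉ R ∪ hfin.toFinset := hi
      rw [Finset.mem_union, hmem] at hi'
      push Not at hi'
      obtain ⟨hi1, hi2⟩ := hi'
      by_cases hA : i.2 = t ∨ (i.1, t) ∈ R
      · exact Or.inl (Or.inl (Or.inl ⟨i, ⟨hi1, hA⟩, rfl⟩))
      · push Not at hA
        refine Or.inl (Or.inr (hi2 ⟨hi1, ?_, hA.2⟩))
        have := hA.1
        revert this
        cases i.2 <;> cases t <;> simp

end Pool.Agent.J4.H59.CC
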